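import Mathlib
import Pool.Agent.U367.DR.Stm

/-!
# Project DR, package PSI: the square root of the projection of a unit to `1 + p ℤ_p`
-/

set_option autoImplicit false

namespace Pool.Agent.U401.DR

variable {p : ℕ} [Fact p.Prime]

lemma one_iff (x : ℤ_[p]) : ‖x - 1‖ < 1 ↔ PadicInt.toZMod x = 1 := by
  rw [← sub_eq_zero, ← map_one (PadicInt.toZMod (p := p)), ← map_sub, ← RingHom.mem_ker,
    PadicInt.ker_toZMod, PadicInt.maximalIdeal_eq_span_p, Ideal.mem_span_singleton,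
    PadicInt.norm_lt_one_iff_dvd]

lemma cast_ne {m : ℕ} (hm : ¬ p ∣ m) : ((m : ℕ) : ZMod p) ≠ 0 := by
  rwa [Ne, ZMod.natCast_eq_zero_iff]

lemma norm_one_of {x : ℤ_[p]} (h : PadicInt.toZMod x ≠ 0) : ‖x‖ = 1 := by
  by_contra hne
  have hlt : ‖x‖ < 1 := lt_of_le_of_ne (PadicInt.norm_le_one x) hne
  apply h
  rw [← RingHom.mem_ker, PadicInt.ker_toZMod, PadicInt.maximalIdeal_eq_span_p,
    Ideal.mem_span_singleton]
  exact PadicInt.norm_lt_one_iff_dvd x |>.1 hlt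

/-- For `w, w' ∈ 1 + p ℤ_p` and `m` prime to `p`: `|w ^ m - w' ^ m| = |w - w'|`. -/
lemma norm_pow_sub {m : ℕ} (hm : ¬ p ∣ m) {w w' : ℤ_[p]} (h : ‖w - 1‖ < 1) (h' : ‖w' - 1‖ < 1) :
    ‖w ^ m - w' ^ m‖ = ‖w - w'‖ := by
  have h1 : ‖∑ i ∈ Finset.range m, w ^ i * w' ^ (m - 1 - i)‖ = 1 := by
    apply norm_one_of
    rw [map_sum]
    simp only [map_mul, map_pow, (one_iff w).1 h, (one_iff w').1 h', one_pow, mul_one,
      Finset.sum_const, Finset.card_range, nsmul_eq_mul]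
    exact cast_ne hm
  rw [← Commute.geom_sum₂_mul (Commute.all w w'), norm_mul, h1, one_mul]

lemma exists_root {m : ℕ} (hm : ¬ p ∣ m) {v : ℤ_[p]} (h : ‖v - 1‖ < 1) :
    ∃ w : ℤ_[p], w ^ m = v ∧ ‖w - 1‖ < 1 := by
  let F : Polynomial ℤ_[p] := Polynomial.X ^ m - Polynomial.C v
  have hm1 : ‖((m : ℕ) : ℤ_[p])‖ = 1 := by
    apply norm_one_of
    rw [map_natCast]
    exact cast_ne hm
  have hd : Polynomial.aeval (1 : ℤ_[p]) F.derivative = ((m : ℕ) : ℤ_[p]) := by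
    simp [F, Polynomial.derivative_X_pow]
  have he : Polynomial.aeval (1 : ℤ_[p]) F = 1 - v := by
    simp [F]
  obtain ⟨z, hz, hz1, -, -⟩ := hensels_lemma (F := F) (a := (1 : ℤ_[p])) (by
    rw [hd, he, hm1, one_pow, norm_sub_rev]; exact h)
  refine ⟨z, ?_, ?_⟩
  · have h2 : z ^ m - v = 0 := by simpa [F] using hz
    exact sub_eq_zero.1 h2
  · rw [hd, hm1] at hz1
    exact hz1

lemma not_dvd (hp : p ≠ 2) : ¬ p ∣ 2 * (p - 1) := by
  have hpr : p.Prime := Fact.out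
  intro h
  rcases (hpr.dvd_mul).1 h with h | h
  · exact hp ((Nat.prime_dvd_prime_iff_eq hpr Nat.prime_two).1 h)
  · have h1 := hpr.two_le
    have h2 := Nat.le_of_dvd (by omega) h
    omega

lemma unit_pow (u : ℤ_[p]ˣ) : ‖((u : ℤ_[p]) ^ (p - 1)) - 1‖ < 1 := by
  rw [one_iff, map_pow]
  apply ZMod.pow_card_sub_one_eq_one
  exact (u.isUnit.map (PadicInt.toZMod (p := p))).ne_zero

/-- the root -/
noncomputable def rt (hp : p ≠ 2) (u : ℤ_[p]ˣ) : ℤ_[p] :=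
  (exists_root (not_dvd hp) (unit_pow u)).choose

lemma rt_pow (hp : p ≠ 2) (u : ℤ_[p]ˣ) : rt hp u ^ (2 * (p - 1)) = (u : ℤ_[p]) ^ (p - 1) :=
  (exists_root (not_dvd hp) (unit_pow u)).choose_spec.1

lemma rt_one (hp : p ≠ 2) (u : ℤ_[p]ˣ) : ‖rt hp u - 1‖ < 1 :=
  (exists_root (not_dvd hp) (unit_pow u)).choose_spec.2

lemma rt_uniq (hp : p ≠ 2) (u : ℤ_[p]ˣ) {w : ℤ_[p]} (h : ‖w - 1‖ < 1)
    (hw : w ^ (2 * (p - 1)) = (u : ℤ_[p]) ^ (p - 1)) : w = rt hp u := by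
  have h1 := norm_pow_sub (not_dvd hp) h (rt_one hp u)
  rw [hw, rt_pow, sub_self, norm_zero] at h1
  exact sub_eq_zero.1 (norm_eq_zero.1 h1.symm)

lemma rt_norm (hp : p ≠ 2) (u : ℤ_[p]ˣ) : ‖rt hp u‖ = 1 := by
  apply norm_one_of
  rw [(one_iff _).1 (rt_one hp u)]
  exact one_ne_zero

lemma rt_mul (hp : p ≠ 2) (u u' : ℤ_[p]ˣ) : rt hp (u * u') = rt hp u * rt hp u' := by
  symm
  apply rt_uniq
  · rw [one_iff, map_mul, (one_iff _).1 (rt_one hp u), (one_iff _).1 (rt_one hp u'), one_mul]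
  · rw [mul_pow, rt_pow, rt_pow, Units.val_mul, mul_pow]

/-- the homomorphism -/
noncomputable def psi (hp : p ≠ 2) : ℤ_[p]ˣ →* ℤ_[p]ˣ :=
  MonoidHom.mk' (fun u => (PadicInt.isUnit_iff.2 (rt_norm hp u)).unit) (fun u u' => by
    ext
    simp only [IsUnit.unit_spec, Units.val_mul, rt_mul])

lemma psi_val (hp : p ≠ 2) (u : ℤ_[p]ˣ) : ((psi hp u : ℤ_[p]ˣ) : ℤ_[p]) = rt hp u := rfl

lemma rt_dist (hp : p ≠ 2) (u : ℤ_[p]ˣ) : ‖rt hp u - 1‖ ≤ ‖(u : ℤ_[p]) - 1‖ := by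
  have h1 := norm_pow_sub (not_dvd hp) (rt_one hp u) (w' := 1) (by simp)
  rw [one_pow, rt_pow] at h1
  rw [← h1, ← geom_sum_mul, norm_mul]
  exact mul_le_of_le_one_left (norm_nonneg _) (PadicInt.norm_le_one _)

lemma rt_lip (hp : p ≠ 2) (u u' : ℤ_[p]ˣ) : ‖rt hp u - rt hp u'‖ ≤ ‖(u : ℤ_[p]) - u'‖ := by
  rw [← norm_pow_sub (not_dvd hp) (rt_one hp u) (rt_one hp u'), rt_pow, rt_pow,
    ← Commute.geom_sum₂_mul (Commute.all _ _), norm_mul]
  exact mul_le_of_le_one_left (norm_nonneg _) (PadicInt.norm_le_one _)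

lemma psi_continuous (hp : p ≠ 2) : Continuous (psi (p := p) hp) := by
  have h1 : Continuous fun u : ℤ_[p]ˣ => rt hp u := by
    rw [continuous_iff_continuousAt]
    intro u
    rw [ContinuousAt, tendsto_iff_norm_sub_tendsto_zero]
    refine squeeze_zero (fun _ => norm_nonneg _) (fun u' => rt_lip hp u' u) ?_
    rw [← tendsto_iff_norm_sub_tendsto_zero]
    exact Units.continuous_val.tendsto u
  rw [Units.continuous_iff]
  refine ⟨h1, ?_⟩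
  have h2 : (fun u : ℤ_[p]ˣ => (((psi hp u)⁻¹ : ℤ_[p]ˣ) : ℤ_[p])) = fun u => rt hp u⁻¹ := by
    funext u
    rw [← map_inv, psi_val]
  rw [h2]
  exact h1.comp continuous_inv

theorem t_PSI : Pool.Agent.U367.DR.S_PSI := by
  intro p _ hp
  refine ⟨psi hp, psi_continuous hp, fun u => ?_⟩
  ext
  rw [Units.val_pow_eq_pow_val, psi_val, rt_pow, Units.val_pow_eq_pow_val]

end Pool.Agent.U401.DR
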