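import Mathlib
import Pool.Agent.U367.DR.Def
import Pool.Agent.U401.DR.PSI

/-!
# Project DR, package PSI3: the continuous character `ψ` with `ψ(u)^(2M) = u^M`, all primes
-/

set_option autoImplicit false

namespace Pool.Agent.U401.DR

/-! ### extension of homomorphisms to the units of an algebraically closed field -/

lemma exists_ext {A K : Type} [CommGroup A] [Field K] [IsAlgClosed K] [CharZero K]
    (H : Subgroup A) (f : H →* Kˣ) : ∃ g : A →* Kˣ, ∀ h : H, g h = f h := by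
  have hsurj : ∀ {n : ℤ}, n ≠ 0 → Function.Surjective fun a : Additive Kˣ => n • a := by
    intro n hn a
    have h1 : ∃ y : Kˣ, y ^ n.natAbs = a.toMul := by
      obtain ⟨z, hz⟩ := IsAlgClosed.exists_pow_nat_eq (a.toMul : K) (Int.natAbs_pos.2 hn)
      have hz0 : z ≠ 0 := by
        rintro rfl
        rw [zero_pow (Int.natAbs_pos.2 hn).ne'] at hz
        exact (Units.ne_zero _) hz.symm
      exact ⟨Units.mk0 z hz0, by ext; simpa using hz⟩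
    obtain ⟨y, hy⟩ := h1
    rcases Int.natAbs_eq n with h | h
    · refine ⟨Additive.ofMul y, ?_⟩
      show n • Additive.ofMul y = a
      rw [h, natCast_zsmul, ← ofMul_pow, hy]
      rfl
    · refine ⟨Additive.ofMul y⁻¹, ?_⟩
      show n • Additive.ofMul y⁻¹ = a
      rw [h, neg_smul, natCast_zsmul, ← ofMul_pow, inv_pow, hy, ofMul_inv, neg_neg]
      rfl
  let _ : DivisibleBy (Additive Kˣ) ℤ := divisibleByOfSMulRightSurj (Additive Kˣ) ℤ hsurj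
  have hB : Module.Baer ℤ (Additive Kˣ) := Module.Baer.of_divisible _
  obtain ⟨g, hg⟩ := hB.extension_property_addMonoidHom
    (MonoidHom.toAdditive H.subtype) (by
      intro x y hxy
      exact Subtype.ext hxy) (MonoidHom.toAdditive f)
  refine ⟨MonoidHom.toAdditive.symm g, fun h => ?_⟩
  have := DFunLike.congr_fun hg (Additive.ofMul h)
  exact this

/-! ### the square root on `1 + 8 ℤ_2` -/

section two

variable [Fact (Nat.Prime 2)]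

lemma norm_two : ‖(2 : ℤ_[2])‖ = 1 / 2 := by
  have h := PadicInt.norm_p (p := 2)
  rw [Nat.cast_ofNat] at h
  rw [h]
  norm_num

lemma le_quarter {x : ℤ_[2]} (h : ‖x‖ < 1 / 2) : ‖x‖ ≤ 1 / 4 := by
  have h1 := (PadicInt.norm_le_pow_iff_norm_lt_pow_add_one x (-2)).2 (by
    norm_num
    linarith)
  norm_num at h1
  linarith

lemma norm_add_one {z : ℤ_[2]} (h : ‖z - 1‖ ≤ 1 / 4) : ‖z + 1‖ = 1 / 2 := by
  have h1 : z + 1 = (z - 1) + 2 := by ring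
  rw [h1, PadicInt.norm_add_eq_max_of_ne, norm_two, max_eq_right (by linarith)]
  rw [norm_two]
  intro h2
  rw [h2] at h
  norm_num at h

lemma exists_sqrt {v : ℤ_[2]} (h : ‖v - 1‖ < 1 / 4) :
    ∃ w : ℤ_[2], w ^ 2 = v ∧ ‖w - 1‖ ≤ 1 / 4 := by
  let F : Polynomial ℤ_[2] := Polynomial.X ^ 2 - Polynomial.C v
  have hd : Polynomial.aeval (1 : ℤ_[2]) F.derivative = 2 := by
    simp [F]
    norm_num
  have he : Polynomial.aeval (1 : ℤ_[2]) F = 1 - v := by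
    simp [F]
  obtain ⟨z, hz, hz1, -, -⟩ := hensels_lemma (F := F) (a := (1 : ℤ_[2])) (by
    rw [hd, he, norm_two, norm_sub_rev]; linarith)
  refine ⟨z, ?_, ?_⟩
  · have h2 : z ^ 2 - v = 0 := by simpa [F] using hz
    exact sub_eq_zero.1 h2
  · rw [hd, norm_two] at hz1
    exact le_quarter hz1

lemma norm_sq_sub_one {z : ℤ_[2]} (h : ‖z - 1‖ ≤ 1 / 4) : ‖z ^ 2 - 1‖ = ‖z - 1‖ / 2 := by
  have h1 : z ^ 2 - 1 = (z - 1) * (z + 1) := by ring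
  rw [h1, norm_mul, norm_add_one h]
  ring

lemma norm_of_quarter {z : ℤ_[2]} (h : ‖z - 1‖ ≤ 1 / 4) : ‖z‖ = 1 := by
  have h1 : z = (z - 1) + 1 := by ring
  rw [h1, PadicInt.norm_add_eq_max_of_ne, norm_one, max_eq_right (by linarith)]
  rw [norm_one]
  intro h2
  rw [h2] at h
  norm_num at h

lemma quarter_mul {z w : ℤ_[2]} (h : ‖z - 1‖ ≤ 1 / 4) (h' : ‖w - 1‖ ≤ 1 / 4) :
    ‖z * w - 1‖ ≤ 1 / 4 := by
  have h1 : z * w - 1 = z * (w - 1) + (z - 1) := by ring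
  rw [h1]
  refine (PadicInt.nonarchimedean _ _).trans (max_le ?_ h)
  rw [norm_mul, norm_of_quarter h, one_mul]
  exact h'

lemma sqrt_uniq {z w : ℤ_[2]} (h : ‖z - 1‖ ≤ 1 / 4) (h' : ‖w - 1‖ ≤ 1 / 4)
    (he : z ^ 2 = w ^ 2) : z = w := by
  rcases sq_eq_sq_iff_eq_or_eq_neg.1 he with h1 | h1
  · exact h1
  · exfalso
    have h2 := norm_add_one h'
    have h3 : w + 1 = -(z - 1) := by rw [h1]; ring
    rw [h3, norm_neg] at h2
    rw [h2] at h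
    norm_num at h

/-- the units `= 1 mod 8` -/
noncomputable def H8 : Subgroup ℤ_[2]ˣ :=
  (Units.map (PadicInt.toZModPow (p := 2) 3 : ℤ_[2] →* ZMod (2 ^ 3))).ker

lemma mem_H8 (u : ℤ_[2]ˣ) : u ∈ H8 ↔ PadicInt.toZModPow 3 (u : ℤ_[2]) = 1 := by
  rw [H8, MonoidHom.mem_ker, Units.ext_iff]
  rfl

lemma mem_H8' (u : ℤ_[2]ˣ) : u ∈ H8 ↔ ‖(u : ℤ_[2]) - 1‖ < 1 / 4 := by
  rw [mem_H8, ← sub_eq_zero, ← map_one (PadicInt.toZModPow (p := 2) 3), ← map_sub,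
    ← RingHom.mem_ker, PadicInt.ker_toZModPow, ← PadicInt.norm_le_pow_iff_mem_span_pow,
    PadicInt.norm_le_pow_iff_norm_lt_pow_add_one]
  norm_num

lemma sq_mem_H8 (u : ℤ_[2]ˣ) : u ^ 2 ∈ H8 := by
  rw [H8, MonoidHom.mem_ker, map_pow]
  generalize (Units.map (PadicInt.toZModPow (p := 2) 3 : ℤ_[2] →* ZMod (2 ^ 3))) u = x
  have h8 : ∀ x : (ZMod (2 ^ 3))ˣ, x ^ 2 = 1 := by decide
  exact h8 x

/-- the root -/
noncomputable def sq8 (u : H8) : ℤ_[2] := (exists_sqrt ((mem_H8' u.1).1 u.2)).choose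

lemma sq8_sq (u : H8) : sq8 u ^ 2 = ((u : ℤ_[2]ˣ) : ℤ_[2]) :=
  (exists_sqrt ((mem_H8' u.1).1 u.2)).choose_spec.1

lemma sq8_one (u : H8) : ‖sq8 u - 1‖ ≤ 1 / 4 :=
  (exists_sqrt ((mem_H8' u.1).1 u.2)).choose_spec.2

lemma sq8_mul (u v : H8) : sq8 (u * v) = sq8 u * sq8 v := by
  apply sqrt_uniq (sq8_one _) (quarter_mul (sq8_one _) (sq8_one _))
  rw [mul_pow, sq8_sq, sq8_sq, sq8_sq]
  simp

/-- the homomorphism -/
noncomputable def psi8 : H8 →* (PadicAlgCl 2)ˣ :=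
  (Units.map (algebraMap ℚ_[2] (PadicAlgCl 2) : ℚ_[2] →* PadicAlgCl 2)).comp
    ((Units.map (algebraMap ℤ_[2] ℚ_[2] : ℤ_[2] →* ℚ_[2])).comp
      (MonoidHom.mk' (fun u => (PadicInt.isUnit_iff.2 (norm_of_quarter (sq8_one u))).unit)
        (fun u u' => by
          ext
          simp only [IsUnit.unit_spec, Units.val_mul, sq8_mul])))

lemma psi8_val (u : H8) : ((psi8 u : (PadicAlgCl 2)ˣ) : PadicAlgCl 2) =
    algebraMap ℚ_[2] (PadicAlgCl 2) ((sq8 u : ℤ_[2]) : ℚ_[2]) := rfl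

lemma psi8_norm (u : H8) : ‖((psi8 u : (PadicAlgCl 2)ˣ) : PadicAlgCl 2) - 1‖ =
    2 * ‖((u : ℤ_[2]ˣ) : ℤ_[2]) - 1‖ := by
  have h1 : ((psi8 u : (PadicAlgCl 2)ˣ) : PadicAlgCl 2) - 1 =
      algebraMap ℚ_[2] (PadicAlgCl 2) ((sq8 u - 1 : ℤ_[2]) : ℚ_[2]) := by
    rw [psi8_val, PadicInt.coe_sub, map_sub, PadicInt.coe_one, map_one]
  have h2 : ‖algebraMap ℚ_[2] (PadicAlgCl 2) ((sq8 u - 1 : ℤ_[2]) : ℚ_[2])‖ =
      ‖((sq8 u - 1 : ℤ_[2]) : ℚ_[2])‖ := PadicAlgCl.norm_extends (p := 2) _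
  rw [h1, h2, ← PadicInt.norm_def, ← sq8_sq, norm_sq_sub_one (sq8_one u)]
  ring

theorem two_case : ∃ ψ : ℤ_[2]ˣ →* (PadicAlgCl 2)ˣ, Continuous ψ ∧
    (∀ u : ℤ_[2]ˣ, ((ψ u : (PadicAlgCl 2)ˣ) : PadicAlgCl 2) ^ (2 * 2) =
      algebraMap ℚ_[2] (PadicAlgCl 2) ((u : ℤ_[2]) : ℚ_[2]) ^ 2) ∧
    ∀ u : ℤ_[2]ˣ, PadicInt.toZModPow 3 (u : ℤ_[2]) = 1 →
      ∃ r : ℚ_[2], ((ψ u : (PadicAlgCl 2)ˣ) : PadicAlgCl 2) =
        algebraMap ℚ_[2] (PadicAlgCl 2) r := by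
  obtain ⟨ψ, hψ⟩ := exists_ext H8 psi8
  have hc1 : Continuous fun u : ℤ_[2]ˣ => ((ψ u : (PadicAlgCl 2)ˣ) : PadicAlgCl 2) := by
    refine continuous_of_continuousAt_one ((Units.coeHom (PadicAlgCl 2)).comp ψ) ?_
    rw [ContinuousAt, map_one, tendsto_iff_norm_sub_tendsto_zero]
    have h1 : Filter.Tendsto (fun u : ℤ_[2]ˣ => 2 * ‖(u : ℤ_[2]) - 1‖) (nhds 1) (nhds 0) := by
      have h2 : Continuous fun u : ℤ_[2]ˣ => 2 * ‖(u : ℤ_[2]) - 1‖ :=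
        continuous_const.mul ((Units.continuous_val.sub continuous_const).norm)
      have h3 := h2.tendsto 1
      simpa using h3
    refine h1.congr' ?_
    have h4 : ∀ᶠ u : ℤ_[2]ˣ in nhds 1, u ∈ H8 := by
      have h5 : ∀ᶠ u : ℤ_[2]ˣ in nhds 1, 2 * ‖(u : ℤ_[2]) - 1‖ < 1 / 4 :=
        h1.eventually (gt_mem_nhds (by norm_num))
      filter_upwards [h5] with u hu
      rw [mem_H8']
      have := norm_nonneg ((u : ℤ_[2]) - 1)
      linarith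
    filter_upwards [h4] with u hu
    have h6 := hψ ⟨u, hu⟩
    have h7 := psi8_norm ⟨u, hu⟩
    rw [← h6] at h7
    exact h7.symm
  refine ⟨ψ, ?_, fun u => ?_, fun u hu => ?_⟩
  · rw [Units.continuous_iff]
    refine ⟨hc1, ?_⟩
    have h2 : (fun u : ℤ_[2]ˣ => (((ψ u)⁻¹ : (PadicAlgCl 2)ˣ) : PadicAlgCl 2)) =
        fun u => ((ψ u⁻¹ : (PadicAlgCl 2)ˣ) : PadicAlgCl 2) := by
      funext u
      rw [map_inv]
    rw [h2]
    exact hc1.comp continuous_inv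
  · have h1 := hψ ⟨u ^ 2, sq_mem_H8 u⟩
    have h2 : ((ψ u : (PadicAlgCl 2)ˣ) : PadicAlgCl 2) ^ 2 =
        ((psi8 ⟨u ^ 2, sq_mem_H8 u⟩ : (PadicAlgCl 2)ˣ) : PadicAlgCl 2) := by
      rw [← h1, ← Units.val_pow_eq_pow_val, ← map_pow]
    rw [pow_mul, h2, psi8_val, ← map_pow, ← PadicInt.coe_pow, sq8_sq, ← map_pow]
    simp
  · obtain h1 := hψ ⟨u, (mem_H8 u).2 hu⟩
    exact ⟨_, by rw [h1, psi8_val]⟩

end two

theorem t_PSI3 : Pool.Agent.U367.DR.S_PSI3 := by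
  intro p _
  by_cases hp : p = 2
  · subst hp
    obtain ⟨ψ, h1, h2, h3⟩ := two_case
    exact ⟨ψ, 2, 3, by norm_num, h1, h2, h3⟩
  · obtain ⟨ψ, hc, hψ⟩ := t_PSI p hp
    have hc1 : ∀ θ : ℤ_[p]ˣ → ℤ_[p]ˣ, Continuous θ → Continuous fun u : ℤ_[p]ˣ =>
        algebraMap ℚ_[p] (PadicAlgCl p) ((θ u : ℤ_[p]) : ℚ_[p]) := by
      intro θ hθ
      have h1 : Continuous (algebraMap ℚ_[p] (PadicAlgCl p)) := by
        have h2 : Isometry (algebraMap ℚ_[p] (PadicAlgCl p)) := by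
          apply AddMonoidHomClass.isometry_of_norm
          exact fun x => PadicAlgCl.norm_extends (p := p) x
        exact h2.continuous
      have h3 : Continuous fun x : ℤ_[p] => (x : ℚ_[p]) := continuous_subtype_val
      exact h1.comp (h3.comp (Units.continuous_val.comp hθ))
    refine ⟨(Units.map (algebraMap ℚ_[p] (PadicAlgCl p) : ℚ_[p] →* PadicAlgCl p)).comp
      ((Units.map (algebraMap ℤ_[p] ℚ_[p] : ℤ_[p] →* ℚ_[p])).comp ψ), p - 1, 0, ?_, ?_, ?_, ?_⟩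
    · have := (Fact.out : p.Prime).two_le
      omega
    · rw [Units.continuous_iff]
      refine ⟨hc1 ψ hc, ?_⟩
      have h3 := hc1 (fun u => ψ u⁻¹) (hc.comp continuous_inv)
      refine h3.congr fun u => ?_
      rw [← map_inv]
      rfl
    · intro u
      have h4 := congrArg (fun x : ℤ_[p]ˣ => (x : ℤ_[p])) (hψ u)
      simp only [Units.val_pow_eq_pow_val] at h4
      show algebraMap ℚ_[p] (PadicAlgCl p) ((ψ u : ℤ_[p]) : ℚ_[p]) ^ (2 * (p - 1)) = _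
      rw [← map_pow, ← PadicInt.coe_pow, h4, PadicInt.coe_pow, map_pow]
    · intro u _
      exact ⟨((ψ u : ℤ_[p]) : ℚ_[p]), rfl⟩

end Pool.Agent.U401.DR
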